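import Mathlib
import Pool.Agent.H45.CH0Rec
set_option autoImplicit false
set_option linter.style.haveILetI false

/-! # M1A: the degree of a principal divisor on a curve over the projective line is zero (algebra)

`S₁`, `S₂` are the coordinate rings of the two parts of a curve finite over the two charts `Spec F[X]` of `P¹`,
`K` is the function field of the curve.

Proof.  Very close to `H45.CH0.ring_reciprocity` (`Pool.Agent.H45.CH0Rec`) and to `theta_relNorm`, `ord_eq`, `isSquare_prod`,
`theta_principal` of `Pool.Agent.H45.CH0Alg`, which are the multiplicative analogue; read those first.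
1. As in `ring_reciprocity`, `Sᵢ` is a Dedekind domain, no maximal ideal is `⊥`, `Sᵢ` is a finite torsion free `F[X]`-module
   through `μᵢ`.  Put `L Q = rdeg .. Q` (finite, since `Sᵢ / Q` is a finite extension of `F[X] / p`, which is finite over `F`).
2. Additive version of `theta`: for a weight `w : Ideal R → ℤ` on a Dedekind domain `R` let
   `Θ w I = ((normalizedFactors I).map w).sum`; it is additive, `Θ w P = w P` for primes.  If
   `wS P = inertiaDeg (P.under R) P * wR (P.under R)` for maximal `P`, then `Θ wS I = Θ wR (relNorm R I)` for `I ≠ 0`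
   (induction as in `theta_relNorm`, with `relNorm_eq_pow_of_isMaximal`; `F` has characteristic zero, so the fraction field
   of `F[X]` is perfect).
3. First chart: `wR p = finrank F (F[X] / p)`, `wS Q = rdeg Q` (tower law); `Θ wR (span {h}) = natDegree h` for `h ≠ 0`.
   Second chart: `wR p = if X ∈ p then 1 else 0`, `wS Q = if μ₂ X ∈ Q then rdeg Q else 0` (the residue field of `F[X]` at
   `(X)` is `F`); `Θ wR (span {h}) = natTrailingDegree h`.  (`h` factors in irreducibles; or: both sides are additive, use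
   `UniqueFactorizationMonoid.induction_on_prime` on `h`.)
4. `g = a / b` with `a b : S₁` gives `∑ n₁ Q * rdeg Q = natDegree (N₁ a) - natDegree (N₁ b)` by `ord_eq` and step 2, 3, where
   `N₁ = Algebra.norm F[X]` or `Algebra.intNorm F[X] S₁` (`Ideal.relNorm_singleton`); similarly
   `g = a' / b'`, `a' b' : S₂` gives `∑ n₂ Q * rdeg Q = natTrailingDegree (N₂ a') - natTrailingDegree (N₂ b')`.
5. Make `K` an algebra over `RatFunc F` (or `FractionRing F[X]`) through `μ₁`; then `N(g) = N₁ a / N₁ b`; through `μ₂`,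
   `N'(g) = N₂ a' / N₂ b'`.  The two structures differ by the automorphism `X ↦ X⁻¹` of `RatFunc F`
   (by `hC`, `hX`), so (`Algebra.norm_eq_of_equiv_equiv`) `N₁ a / N₁ b` is `N₂ a' / N₂ b'` with `X` replaced by `X⁻¹`.  Take
   `RatFunc.intDegree`: `intDegree (P(X⁻¹)) = - natTrailingDegree P` (`P(X⁻¹) X ^ natDegree P = P.reverse`), so
   `natDegree (N₁ a) - natDegree (N₁ b) = - natTrailingDegree (N₂ a') + natTrailingDegree (N₂ b')`. -/

namespace H45.PB
open Polynomial UniqueFactorizationMonoid H45.CH0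

/-- degree over `F` of the residue ring of `Q` -/
noncomputable def rdeg {F S : Type} [Field F] [CommRing S] (j : F →+* S) (Q : Ideal S) : ℕ :=
  @Module.finrank F (S ⧸ Q) _ _ (((Ideal.Quotient.mk Q).comp j).toAlgebra.toModule)

/-! ### sums over prime factors -/

namespace M1A

section
variable {R : Type} [CommRing R] [IsDedekindDomain R]

/-- sum of the weights of the prime factors -/
noncomputable def Th (w : Ideal R → ℤ) (I : Ideal R) : ℤ := ((normalizedFactors I).map w).sum

lemma Th_mul (w : Ideal R → ℤ) {I J : Ideal R} (hI : I ≠ 0) (hJ : J ≠ 0) :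
    Th w (I * J) = Th w I + Th w J := by
  unfold Th
  rw [normalizedFactors_mul hI hJ, Multiset.map_add, Multiset.sum_add]

lemma Th_one (w : Ideal R → ℤ) : Th w (1 : Ideal R) = 0 := by
  rw [Th, normalizedFactors_one]; simp

lemma Th_pow (w : Ideal R → ℤ) {I : Ideal R} (hI : I ≠ 0) (n : ℕ) :
    Th w (I ^ n) = n * Th w I := by
  induction n with
  | zero => rw [pow_zero, Th_one]; simp
  | succ k ih => rw [pow_succ, Th_mul w (pow_ne_zero _ hI) hI, ih]; push_cast; ring

lemma Th_prime (w : Ideal R → ℤ) {P : Ideal R} (hP : P.IsPrime) (hP0 : P ≠ ⊥) :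
    Th w P = w P := by
  unfold Th
  have : Irreducible P := (Ideal.prime_of_isPrime hP0 hP).irreducible
  rw [normalizedFactors_irreducible this]
  simp

lemma Th_eq_sum (w : Ideal R → ℤ) (I : Ideal R) (T : Finset (Ideal R))
    (hT : ∀ Q ∈ normalizedFactors I, Q ∈ T) :
    Th w I = ∑ Q ∈ T, ((normalizedFactors I).count Q : ℤ) * w Q := by
  classical
  unfold Th
  rw [Finset.sum_multiset_map_count]
  simp only [nsmul_eq_mul]
  apply Finset.sum_subset
  · intro Q hQ
    exact hT Q (Multiset.mem_toFinset.mp hQ)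
  · intro Q _ hQ
    rw [Multiset.mem_toFinset] at hQ
    rw [Multiset.count_eq_zero_of_notMem hQ, Nat.cast_zero, zero_mul]

/-- sum over the primes, in terms of two numerators -/
lemma sum_eq (w : Ideal R → ℤ) (a b : R)
    (n : Ideal R → ℤ) (T : Finset (Ideal R)) (hT : ∀ Q ∈ T, Q.IsPrime ∧ Q ≠ ⊥)
    (hT' : ∀ Q : Ideal R, Q.IsPrime → Q ≠ ⊥ → n Q * w Q ≠ 0 → Q ∈ T)
    (hn : ∀ Q : Ideal R, Q.IsPrime → Q ≠ ⊥ → n Q = ((normalizedFactors (Ideal.span {a})).count Q : ℤ)
      - (normalizedFactors (Ideal.span {b})).count Q) :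
    ∑ Q ∈ T, n Q * w Q = Th w (Ideal.span {a}) - Th w (Ideal.span {b}) := by
  classical
  let T' : Finset (Ideal R) := T ∪ (normalizedFactors (Ideal.span {a})).toFinset ∪
    (normalizedFactors (Ideal.span {b})).toFinset
  have hT'p : ∀ Q ∈ T', Q.IsPrime ∧ Q ≠ ⊥ := by
    intro Q hQ
    rw [Finset.mem_union, Finset.mem_union] at hQ
    rcases hQ with (hQ | hQ) | hQ
    · exact hT Q hQ
    · have := prime_of_normalized_factor Q (Multiset.mem_toFinset.mp hQ)
      exact ⟨Ideal.isPrime_of_prime this, this.ne_zero⟩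
    · have := prime_of_normalized_factor Q (Multiset.mem_toFinset.mp hQ)
      exact ⟨Ideal.isPrime_of_prime this, this.ne_zero⟩
  have h1 : ∑ Q ∈ T, n Q * w Q = ∑ Q ∈ T', n Q * w Q := by
    apply Finset.sum_subset
    · intro Q hQ
      exact Finset.mem_union_left _ (Finset.mem_union_left _ hQ)
    · intro Q hQ hQT
      by_contra h
      exact hQT (hT' Q (hT'p Q hQ).1 (hT'p Q hQ).2 h)
  rw [h1, Th_eq_sum w (Ideal.span {a}) T' (fun Q hQ => Finset.mem_union_left _
        (Finset.mem_union_right _ (Multiset.mem_toFinset.mpr hQ))),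
      Th_eq_sum w (Ideal.span {b}) T' (fun Q hQ => Finset.mem_union_right _
        (Multiset.mem_toFinset.mpr hQ)), ← Finset.sum_sub_distrib]
  apply Finset.sum_congr rfl
  intro Q hQ
  rw [hn Q (hT'p Q hQ).1 (hT'p Q hQ).2]
  ring
end

section
variable {R S : Type} [CommRing R] [IsDedekindDomain R]
  [CommRing S] [IsDedekindDomain S] [Algebra R S]
  [Module.Finite R S] [Module.IsTorsionFree R S] [PerfectField (FractionRing R)]

lemma Th_relNorm (wR : Ideal R → ℤ) (wS : Ideal S → ℤ)
    (hw : ∀ P : Ideal S, P.IsMaximal → P ≠ ⊥ → wS P = (P.inertiaDeg R : ℤ) * wR (P.under R))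
    (I : Ideal S) (hI : I ≠ 0) :
    Th wS I = Th wR (Ideal.relNorm R I) := by
  induction I using UniqueFactorizationMonoid.induction_on_prime with
  | h₁ => exact absurd rfl hI
  | h₂ J hJ =>
    have : J = 1 := by
      rw [Ideal.one_eq_top]; exact Ideal.isUnit_iff.mp hJ
    subst this
    rw [Th_one, map_one, Th_one]
  | h₃ J P hJ hP ih =>
    have hPp : P.IsPrime := Ideal.isPrime_of_prime hP
    have hP0 : P ≠ ⊥ := hP.ne_zero
    have hPm : P.IsMaximal := hPp.isMaximal hP0
    have hJn : Ideal.relNorm R J ≠ 0 := by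
      intro h; exact hJ ((Ideal.relNorm_eq_bot_iff).mp h)
    have hPn : Ideal.relNorm R P ≠ 0 := by
      intro h; exact hP0 ((Ideal.relNorm_eq_bot_iff).mp h)
    rw [Th_mul _ hP.ne_zero hJ, map_mul, Th_mul _ hPn hJn, ih hJ]
    congr 1
    let p := P.under R
    have hpm : p.IsMaximal := inferInstance
    have hp0 : p ≠ ⊥ := by
      intro h
      exact hP0 (Ideal.eq_bot_of_comap_eq_bot (R := R) h)
    rw [Ideal.relNorm_eq_pow_of_isMaximal P p, Th_pow _ hp0, Th_prime _ hPp hP0,
      Th_prime _ hpm.isPrime hp0, hw P hPm hP0]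
end

/-! ### polynomials -/
section
variable {F : Type} [Field F]

lemma span_ne {h : F[X]} (hh : h ≠ 0) : (Ideal.span {h} : Ideal F[X]) ≠ 0 := by
  rw [Ne, Submodule.zero_eq_bot, Ideal.span_singleton_eq_bot]; exact hh

lemma Th_nat (v : F[X] → ℕ) (hv : ∀ p q : F[X], p ≠ 0 → q ≠ 0 → v (p * q) = v p + v q)
    (hu : ∀ c : F, c ≠ 0 → v (C c) = 0) (w : Ideal F[X] → ℤ)
    (hw : ∀ π : F[X], Prime π → w (Ideal.span {π}) = v π) (h : F[X]) (hh : h ≠ 0) :
    Th w (Ideal.span {h}) = v h := by
  induction h using UniqueFactorizationMonoid.induction_on_prime with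
  | h₁ => exact absurd rfl hh
  | h₂ u huu =>
    rw [Ideal.span_singleton_eq_top.mpr huu, ← Ideal.one_eq_top, Th_one]
    obtain ⟨c, hc, rfl⟩ := Polynomial.isUnit_iff.mp huu
    rw [hu c hc.ne_zero, Nat.cast_zero]
  | h₃ a p ha hp ih =>
    rw [← Ideal.span_singleton_mul_span_singleton, Th_mul w (span_ne hp.ne_zero) (span_ne ha), ih ha,
      hv p a hp.ne_zero ha]
    have hPp : (Ideal.span {p} : Ideal F[X]).IsPrime := (Ideal.span_singleton_prime hp.ne_zero).mpr hp
    rw [Th_prime w hPp (span_ne hp.ne_zero), hw p hp]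
    push_cast; ring

/-- first weight -/
noncomputable def w1 (p : Ideal F[X]) : ℤ := Module.finrank F (F[X] ⧸ p)

open Classical in
/-- second weight -/
noncomputable def w2 (p : Ideal F[X]) : ℤ := if (X : F[X]) ∈ p then 1 else 0

lemma Th_w1 (h : F[X]) (hh : h ≠ 0) : Th w1 (Ideal.span {h}) = h.natDegree := by
  apply Th_nat (fun h : F[X] => h.natDegree) _ _ _ _ h hh
  · intro p q hp hq
    exact natDegree_mul hp hq
  · intro c _
    exact natDegree_C c
  · intro π _
    unfold w1
    rw [finrank_quotient_span_eq_natDegree]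

lemma Th_w2 (h : F[X]) (hh : h ≠ 0) : Th w2 (Ideal.span {h}) = h.natTrailingDegree := by
  apply Th_nat (fun h : F[X] => h.natTrailingDegree) _ _ _ _ h hh
  · intro p q hp hq
    exact natTrailingDegree_mul hp hq
  · intro c _
    exact natTrailingDegree_C c
  · intro π hπ
    unfold w2
    rw [Ideal.mem_span_singleton]
    by_cases hX : π ∣ X
    · rw [if_pos hX]
      obtain ⟨u, hu⟩ := (hπ.irreducible.dvd_irreducible_iff_associated irreducible_X).mp hX
      obtain ⟨c, hc, hc'⟩ := Polynomial.isUnit_iff.mp u.isUnit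
      have h1 := natTrailingDegree_mul (p := π) (q := (u : F[X])) hπ.ne_zero u.ne_zero
      rw [hu, natTrailingDegree_X, ← hc', natTrailingDegree_C, add_zero] at h1
      rw [← h1]; rfl
    · rw [if_neg hX]
      have : π.natTrailingDegree = 0 := by
        rw [natTrailingDegree_eq_zero]
        right
        intro h0
        apply hX
        have hX' : (X : F[X]) ∣ π := X_dvd_iff.mpr h0
        exact ((irreducible_X.dvd_irreducible_iff_associated hπ.irreducible).mp hX').symm.dvd
      rw [this]; rfl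

lemma finrank_X (p : Ideal F[X]) [hp : p.IsMaximal] (hX : (X : F[X]) ∈ p) :
    Module.finrank F (F[X] ⧸ p) = 1 := by
  have h1 : Ideal.span {(X : F[X])} ≤ p := by
    rw [Ideal.span_le, Set.singleton_subset_iff]; exact hX
  have h2 : (Ideal.span {(X : F[X])}).IsMaximal :=
    PrincipalIdealRing.isMaximal_of_irreducible irreducible_X
  have h3 : Ideal.span {(X : F[X])} = p := h2.eq_of_le hp.ne_top h1
  rw [← h3, finrank_quotient_span_eq_natDegree, natDegree_X]
end

lemma rdeg_eq {F S : Type} [Field F] [CommRing S] [Algebra F S] (Q : Ideal S) :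
    rdeg (algebraMap F S) Q = Module.finrank F (S ⧸ Q) := by
  unfold rdeg
  have : ((Ideal.Quotient.mk Q).comp (algebraMap F S)).toAlgebra =
      (inferInstance : Algebra F (S ⧸ Q)) := by
    apply Algebra.algebra_ext
    intro r
    rfl
  rw [this]

section
variable {F S : Type} [Field F] [CommRing S] [Algebra F[X] S] [Algebra F S]
  [IsScalarTower F F[X] S] [Module.Finite F[X] S]

lemma rdeg_tower (Q : Ideal S) [hQ : Q.IsMaximal] :
    (rdeg (algebraMap F S) Q : ℤ) = (Q.inertiaDeg F[X] : ℤ) * w1 (Q.under F[X]) := by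
  let p := Q.under F[X]
  have hpm : p.IsMaximal := inferInstance
  rw [rdeg_eq, Ideal.inertiaDeg_eq_of_isMaximal p Q]
  unfold w1
  let : Field (F[X] ⧸ p) := Ideal.Quotient.field p
  let : Field (S ⧸ Q) := Ideal.Quotient.field Q
  have : IsScalarTower F (F[X] ⧸ p) (S ⧸ Q) := by
    refine IsScalarTower.of_algebraMap_eq' ?_
    ext a
    change Ideal.Quotient.mk Q (algebraMap F S a) = _
    rw [IsScalarTower.algebraMap_apply F F[X] S a]
    rfl
  have h := Module.finrank_mul_finrank F (F[X] ⧸ p) (S ⧸ Q)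
  rw [← h]
  push_cast
  ring
end

end M1A

namespace M1A

section
variable {F S K : Type} [Field F] [CharZero F] [CommRing S] [IsDomain S] [Algebra F[X] S] [Algebra F S]
  [IsScalarTower F F[X] S] [Module.Finite F[X] S] [Field K] [Algebra S K] [IsFractionRing S K]

/-- Data of one chart. -/
theorem chart (hinj : Function.Injective (algebraMap F[X] S)) (g : K) (hg : g ≠ 0) (n : Ideal S → ℤ)
    (hn : ∀ Q : Ideal S, Q.IsMaximal → LocOrd Q g (n Q))
    [Algebra (FractionRing F[X]) K] [Algebra F[X] K] [IsScalarTower F[X] (FractionRing F[X]) K]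
    [IsScalarTower F[X] S K] :
    ∃ p q : F[X], p ≠ 0 ∧ q ≠ 0 ∧
      Algebra.norm (FractionRing F[X]) g * algebraMap F[X] (FractionRing F[X]) q
        = algebraMap F[X] (FractionRing F[X]) p ∧
      (∀ T : Finset (Ideal S), (∀ Q ∈ T, Q.IsMaximal) →
        (∀ Q : Ideal S, Q.IsMaximal → n Q ≠ 0 → Q ∈ T) →
        ∑ Q ∈ T, n Q * (rdeg (algebraMap F S) Q : ℤ) = (p.natDegree : ℤ) - q.natDegree) ∧
      (∀ T : Finset (Ideal S), (∀ Q ∈ T, Q.IsMaximal ∧ algebraMap F[X] S X ∈ Q) →
        (∀ Q : Ideal S, Q.IsMaximal → algebraMap F[X] S X ∈ Q → n Q ≠ 0 → Q ∈ T) →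
        ∑ Q ∈ T, n Q * (rdeg (algebraMap F S) Q : ℤ)
          = (p.natTrailingDegree : ℤ) - q.natTrailingDegree) := by
  classical
  have hnf : ∀ Q : Ideal S, Q.IsMaximal → Q ≠ ⊥ := by
    intro Q hQ h0
    have hQp : Q.IsPrime := hQ.isPrime
    obtain ⟨O, i1, i2, i3, i4, i5, i6, i7, i8, hO⟩ := hn Q hQ
    have h1 : Q.map (algebraMap S O) = IsLocalRing.maximalIdeal O :=
      IsLocalization.AtPrime.map_eq_maximalIdeal Q O
    rw [h0, Ideal.map_bot] at h1
    exact IsDiscreteValuationRing.not_a_field O h1.symm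
  have htf : Module.IsTorsionFree F[X] S := Module.isTorsionFree_iff_algebraMap_injective.mpr hinj
  have hint : Algebra.IsIntegral F[X] S := inferInstance
  have hprime : ∀ P : Ideal S, P ≠ ⊥ → P.IsPrime → P.IsMaximal := by
    intro P hP0 hP
    have h1 : (P.comap (algebraMap F[X] S)) ≠ ⊥ := by
      intro h
      exact hP0 (Ideal.eq_bot_of_comap_eq_bot (R := F[X]) h)
    have h2 : (P.comap (algebraMap F[X] S)).IsPrime := inferInstance
    exact Ideal.isMaximal_of_isIntegral_of_isMaximal_comap (R := F[X]) P (h2.isMaximal h1)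
  have hSded : IsDedekindDomain S := by
    have : IsDedekindDomainDvr S :=
      { toIsNoetherian := IsNoetherianRing.of_finite F[X] S
        is_dvr_at_nonzero_prime := by
          intro P hP0 hP
          obtain ⟨O, i1, i2, i3, i4, i5, i6, i7, i8, hO⟩ := hn P (hprime P hP0 hP)
          exact IsDiscreteValuationRing.RingEquivClass.isDiscreteValuationRing
            (IsLocalization.algEquiv P.primeCompl O (Localization.AtPrime P)) }
    infer_instance
  obtain ⟨a, b, hb, hab⟩ := IsFractionRing.div_surjective (A := S) g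
  have hb0 : b ≠ 0 := nonZeroDivisors.ne_zero hb
  have ha0 : a ≠ 0 := by
    rintro rfl
    rw [map_zero, zero_div] at hab
    exact hg hab.symm
  have hbK : algebraMap S K b ≠ 0 := by
    rw [Ne, FaithfulSMul.algebraMap_eq_zero_iff]; exact hb0
  have hgab : g * algebraMap S K b = algebraMap S K a := by
    rw [← hab]; field_simp
  have hcK : CharZero F[X] := inferInstance
  have hcFF : CharZero (FractionRing F[X]) := inferInstance
  have hdim : FiniteDimensional (FractionRing F[X]) K := by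
    have : Algebra.IsAlgebraic (FractionRing F[X]) K :=
      isAlgebraic_of_isFractionRing F[X] S (FractionRing F[X]) K
    have : IsLocalization (Algebra.algebraMapSubmonoid S (nonZeroDivisors F[X])) K :=
      IsIntegralClosure.isLocalization F[X] (FractionRing F[X]) K S
    exact Module.Finite.of_isLocalization F[X] S (nonZeroDivisors F[X])
  refine ⟨Algebra.intNorm F[X] S a, Algebra.intNorm F[X] S b, Algebra.intNorm_ne_zero.mpr ha0,
    Algebra.intNorm_ne_zero.mpr hb0, ?_, ?_, ?_⟩
  · rw [Algebra.algebraMap_intNorm (A := F[X]) (K := FractionRing F[X]) (L := K) (B := S) a,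
      Algebra.algebraMap_intNorm (A := F[X]) (K := FractionRing F[X]) (L := K) (B := S) b,
      ← map_mul, hgab]
  · intro T hT hT'
    have hs := sum_eq (fun Q => (rdeg (algebraMap F S) Q : ℤ)) a b n T
      (fun Q hQ => ⟨(hT Q hQ).isPrime, hnf Q (hT Q hQ)⟩)
      (fun Q hQ hQ0 h => hT' Q (hprime Q hQ0 hQ) (left_ne_zero_of_mul h))
      (fun Q hQ hQ0 => by
        obtain ⟨O, i1, i2, i3, i4, i5, i6, i7, i8, hO⟩ := hn Q (hprime Q hQ0 hQ)
        exact ord_eq (O := O) Q hQ0 a b ha0 hb0 g hgab (n Q) hO)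
    rw [hs]
    have hw : ∀ P : Ideal S, P.IsMaximal → P ≠ ⊥ →
        (rdeg (algebraMap F S) P : ℤ) = (P.inertiaDeg F[X] : ℤ) * w1 (P.under F[X]) := by
      intro P hP hP0
      exact rdeg_tower P
    have hsp : ∀ c : S, c ≠ 0 → Ideal.span {c} ≠ (0 : Ideal S) := by
      intro c hc
      rw [Ne, Submodule.zero_eq_bot, Ideal.span_singleton_eq_bot]; exact hc
    rw [Th_relNorm w1 _ hw _ (hsp a ha0), Th_relNorm w1 _ hw _ (hsp b hb0), Ideal.relNorm_singleton,
      Ideal.relNorm_singleton, Th_w1 _ (Algebra.intNorm_ne_zero.mpr ha0),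
      Th_w1 _ (Algebra.intNorm_ne_zero.mpr hb0)]
  · intro T hT hT'
    let wS : Ideal S → ℤ := fun Q => if algebraMap F[X] S X ∈ Q then (rdeg (algebraMap F S) Q : ℤ) else 0
    have hsum : ∑ Q ∈ T, n Q * (rdeg (algebraMap F S) Q : ℤ) = ∑ Q ∈ T, n Q * wS Q := by
      apply Finset.sum_congr rfl
      intro Q hQ
      simp only [wS]
      rw [if_pos (hT Q hQ).2]
    have hs := sum_eq wS a b n T
      (fun Q hQ => ⟨(hT Q hQ).1.isPrime, hnf Q (hT Q hQ).1⟩)
      (fun Q hQ hQ0 h => by
        have hX : algebraMap F[X] S X ∈ Q := by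
          by_contra hX
          apply h
          simp only [wS]
          rw [if_neg hX, mul_zero]
        exact hT' Q (hprime Q hQ0 hQ) hX (left_ne_zero_of_mul h))
      (fun Q hQ hQ0 => by
        obtain ⟨O, i1, i2, i3, i4, i5, i6, i7, i8, hO⟩ := hn Q (hprime Q hQ0 hQ)
        exact ord_eq (O := O) Q hQ0 a b ha0 hb0 g hgab (n Q) hO)
    rw [hsum, hs]
    have hw : ∀ P : Ideal S, P.IsMaximal → P ≠ ⊥ →
        wS P = (P.inertiaDeg F[X] : ℤ) * w2 (P.under F[X]) := by
      intro P hP hP0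
      have hpm : (P.under F[X]).IsMaximal := inferInstance
      simp only [wS, w2]
      by_cases hX : algebraMap F[X] S X ∈ P
      · have hX' : (X : F[X]) ∈ P.under F[X] := hX
        rw [if_pos hX, if_pos hX', rdeg_tower P]
        unfold w1
        rw [finrank_X _ hX']
        simp
      · have hX' : ¬ (X : F[X]) ∈ P.under F[X] := hX
        rw [if_neg hX, if_neg hX', mul_zero]
    have hsp : ∀ c : S, c ≠ 0 → Ideal.span {c} ≠ (0 : Ideal S) := by
      intro c hc
      rw [Ne, Submodule.zero_eq_bot, Ideal.span_singleton_eq_bot]; exact hc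
    rw [Th_relNorm w2 _ hw _ (hsp a ha0), Th_relNorm w2 _ hw _ (hsp b hb0), Ideal.relNorm_singleton,
      Ideal.relNorm_singleton, Th_w2 _ (Algebra.intNorm_ne_zero.mpr ha0),
      Th_w2 _ (Algebra.intNorm_ne_zero.mpr hb0)]
end

/-! ### the automorphism `X ↦ X⁻¹` -/
section
variable {F : Type} [Field F]

/-- the element `X` of the field of rational functions -/
noncomputable def xx (F : Type) [Field F] : FractionRing F[X] := algebraMap F[X] (FractionRing F[X]) X

lemma xx_ne : xx F ≠ 0 := by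
  unfold xx
  rw [Ne, FaithfulSMul.algebraMap_eq_zero_iff]
  exact X_ne_zero

/-- substitution `X ↦ X⁻¹` on polynomials -/
noncomputable def sub0 (F : Type) [Field F] : F[X] →+* FractionRing F[X] :=
  eval₂RingHom ((algebraMap F[X] (FractionRing F[X])).comp C) (xx F)⁻¹

lemma eval₂_xx (P : F[X]) :
    eval₂ ((algebraMap F[X] (FractionRing F[X])).comp C) (xx F) P = algebraMap F[X] (FractionRing F[X]) P := by
  have : eval₂RingHom ((algebraMap F[X] (FractionRing F[X])).comp C) (xx F)
      = algebraMap F[X] (FractionRing F[X]) := by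
    apply Polynomial.ringHom_ext
    · intro a; simp
    · simp [xx]
  exact congrArg (fun f : F[X] →+* (FractionRing F[X]) => f P) this

lemma sub0_mul (P : F[X]) :
    sub0 F P * (xx F) ^ P.natDegree = algebraMap F[X] (FractionRing F[X]) P.reverse := by
  let _ : Invertible (xx F)⁻¹ := invertibleOfNonzero (inv_ne_zero xx_ne)
  have h := eval₂_reverse_mul_pow ((algebraMap F[X] (FractionRing F[X])).comp C) ((xx F)⁻¹) P
  rw [invOf_eq_inv, inv_inv, eval₂_xx] at h
  have h' : sub0 F P = eval₂ ((algebraMap F[X] (FractionRing F[X])).comp C) ((xx F)⁻¹) P := rfl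
  rw [h', ← h, mul_assoc, ← mul_pow, inv_mul_cancel₀ xx_ne, one_pow, mul_one]

lemma sub0_inj : Function.Injective (sub0 F) := by
  rw [injective_iff_map_eq_zero]
  intro P hP
  have h := sub0_mul P
  rw [hP, zero_mul] at h
  have h1 : P.reverse = 0 := by
    have := h.symm
    rwa [FaithfulSMul.algebraMap_eq_zero_iff] at this
  exact reverse_eq_zero.mp h1

/-- substitution `X ↦ X⁻¹` on rational functions -/
noncomputable def sub1 (F : Type) [Field F] : FractionRing F[X] →+* FractionRing F[X] :=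
  IsFractionRing.lift (g := sub0 F) sub0_inj

lemma sub1_alg (P : F[X]) : sub1 F (algebraMap F[X] (FractionRing F[X]) P) = sub0 F P :=
  IsFractionRing.lift_algebraMap _ _

lemma sub1_sub1 : (sub1 F).comp (sub1 F) = RingHom.id _ := by
  apply IsFractionRing.ringHom_ext (A := F[X])
  intro P
  have : ((sub1 F).comp (sub1 F)).comp (algebraMap F[X] (FractionRing F[X])) = algebraMap F[X] (FractionRing F[X]) := by
    apply Polynomial.ringHom_ext
    · intro a
      simp only [RingHom.comp_apply, sub1_alg]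
      have : sub0 F (C a) = algebraMap F[X] (FractionRing F[X]) (C a) := by
        simp [sub0]
      rw [this, sub1_alg, this]
    · simp only [RingHom.comp_apply, sub1_alg]
      have : sub0 F X = (xx F)⁻¹ := by
        simp [sub0]
      rw [this, map_inv₀]
      have h2 : sub1 F (xx F) = (xx F)⁻¹ := by
        unfold xx
        rw [sub1_alg, this]; rfl
      rw [h2, inv_inv]; rfl
  have h := congrArg (fun f => f P) this
  simpa using h

/-- substitution `X ↦ X⁻¹` as an automorphism -/
noncomputable def sube (F : Type) [Field F] : FractionRing F[X] ≃+* FractionRing F[X] :=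
  RingEquiv.ofRingHom (sub1 F) (sub1 F) sub1_sub1 sub1_sub1

lemma degree_rel (p q p' q' : F[X]) (hp : p ≠ 0) (hq : q ≠ 0) (hp' : p' ≠ 0) (hq' : q' ≠ 0)
    (N N' : (FractionRing F[X])) (h1 : N * algebraMap F[X] (FractionRing F[X]) q = algebraMap F[X] (FractionRing F[X]) p)
    (h2 : N' * algebraMap F[X] (FractionRing F[X]) q' = algebraMap F[X] (FractionRing F[X]) p') (h : N = sub1 F N') :
    ((p.natDegree : ℤ) - q.natDegree) + ((p'.natTrailingDegree : ℤ) - q'.natTrailingDegree) = 0 := by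
  have h3 : N * sub0 F q' = sub0 F p' := by
    rw [h, ← sub1_alg, ← sub1_alg, ← map_mul, h2]
  have h4 : algebraMap F[X] (FractionRing F[X]) (p * q'.reverse * X ^ p'.natDegree)
      = algebraMap F[X] (FractionRing F[X]) (q * p'.reverse * X ^ q'.natDegree) := by
    rw [map_mul, map_mul, map_mul, map_mul, ← sub0_mul, ← sub0_mul, map_pow, map_pow, ← h1, ← h3]
    change _ * (xx F) ^ p'.natDegree = _ * (xx F) ^ q'.natDegree
    ring
  have h5 := FaithfulSMul.algebraMap_injective F[X] (FractionRing F[X]) h4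
  have hr1 : q'.reverse ≠ 0 := fun h => hq' (reverse_eq_zero.mp h)
  have hr2 : p'.reverse ≠ 0 := fun h => hp' (reverse_eq_zero.mp h)
  have h6 := congrArg natDegree h5
  rw [natDegree_mul (mul_ne_zero hp hr1) (pow_ne_zero _ X_ne_zero), natDegree_mul hp hr1,
    natDegree_mul (mul_ne_zero hq hr2) (pow_ne_zero _ X_ne_zero), natDegree_mul hq hr2,
    natDegree_X_pow, natDegree_X_pow, reverse_natDegree, reverse_natDegree] at h6
  have e1 := natTrailingDegree_le_natDegree p'
  have e2 := natTrailingDegree_le_natDegree q'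
  omega
end

end M1A

open M1A in
theorem degree_zero {F : Type} [Field F] [CharZero F] {S₁ S₂ K : Type} [CommRing S₁] [IsDomain S₁]
    [CommRing S₂] [IsDomain S₂] [Field K] [Algebra S₁ K] [IsFractionRing S₁ K] [Algebra S₂ K] [IsFractionRing S₂ K]
    (μ₁ : F[X] →+* S₁) (μ₂ : F[X] →+* S₂) (hf1 : μ₁.Finite) (hf2 : μ₂.Finite)
    (hi1 : Function.Injective μ₁) (hi2 : Function.Injective μ₂)
    (hC : ∀ c : F, algebraMap S₁ K (μ₁ (C c)) = algebraMap S₂ K (μ₂ (C c)))
    (hX : algebraMap S₁ K (μ₁ X) * algebraMap S₂ K (μ₂ X) = 1)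
    (g : K) (hg : g ≠ 0) (n₁ : Ideal S₁ → ℤ) (n₂ : Ideal S₂ → ℤ)
    (hn1 : ∀ Q : Ideal S₁, Q.IsMaximal → LocOrd Q g (n₁ Q))
    (hn2 : ∀ Q : Ideal S₂, Q.IsMaximal → LocOrd Q g (n₂ Q))
    (T₁ : Finset (Ideal S₁)) (hT1 : ∀ Q ∈ T₁, Q.IsMaximal)
    (hT1' : ∀ Q : Ideal S₁, Q.IsMaximal → n₁ Q ≠ 0 → Q ∈ T₁)
    (T₂ : Finset (Ideal S₂)) (hT2 : ∀ Q ∈ T₂, Q.IsMaximal ∧ μ₂ X ∈ Q)
    (hT2' : ∀ Q : Ideal S₂, Q.IsMaximal → μ₂ X ∈ Q → n₂ Q ≠ 0 → Q ∈ T₂) :
    ∑ Q ∈ T₁, n₁ Q * (rdeg (μ₁.comp C) Q : ℤ) + ∑ Q ∈ T₂, n₂ Q * (rdeg (μ₂.comp C) Q : ℤ) = 0 := by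
  -- the two embeddings of the field of rational functions
  have inj1 : Function.Injective ((algebraMap S₁ K).comp μ₁) :=
    (FaithfulSMul.algebraMap_injective S₁ K).comp hi1
  let φ₁ : FractionRing F[X] →+* K := IsFractionRing.lift (g := (algebraMap S₁ K).comp μ₁) inj1
  have hφ₁ : ∀ P, φ₁ (algebraMap F[X] _ P) = algebraMap S₁ K (μ₁ P) := fun P =>
    IsFractionRing.lift_algebraMap _ _
  let φ₂ : FractionRing F[X] →+* K := φ₁.comp (sub1 F)
  have hφ₂ : ∀ P, φ₂ (algebraMap F[X] _ P) = algebraMap S₂ K (μ₂ P) := by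
    intro P
    have : φ₂.comp (algebraMap F[X] (FractionRing F[X])) = (algebraMap S₂ K).comp μ₂ := by
      apply Polynomial.ringHom_ext
      · intro a
        simp only [φ₂, RingHom.comp_apply, sub1_alg]
        have h1 : sub0 F (C a) = algebraMap F[X] (FractionRing F[X]) (C a) := by
          simp [sub0]
        rw [h1, hφ₁, hC]
      · simp only [φ₂, RingHom.comp_apply, sub1_alg]
        have h1 : sub0 F X = (xx F)⁻¹ := by
          simp [sub0]
        rw [h1, map_inv₀]
        unfold xx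
        rw [hφ₁]
        exact inv_eq_of_mul_eq_one_right hX
    have h := congrArg (fun f => f P) this
    simpa using h
  have key : ∀ {S : Type} [CommRing S] [IsDomain S] [Algebra S K] [IsFractionRing S K] (μ : F[X] →+* S)
      (_ : μ.Finite) (_ : Function.Injective μ) (n : Ideal S → ℤ)
      (_ : ∀ Q : Ideal S, Q.IsMaximal → LocOrd Q g (n Q)) (φ : FractionRing F[X] →+* K)
      (_ : ∀ P, φ (algebraMap F[X] _ P) = algebraMap S K (μ P)),
      ∃ p q : F[X], p ≠ 0 ∧ q ≠ 0 ∧
      @Algebra.norm (FractionRing F[X]) K _ _ φ.toAlgebra g * algebraMap F[X] (FractionRing F[X]) q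
        = algebraMap F[X] (FractionRing F[X]) p ∧
      (∀ T : Finset (Ideal S), (∀ Q ∈ T, Q.IsMaximal) →
        (∀ Q : Ideal S, Q.IsMaximal → n Q ≠ 0 → Q ∈ T) →
        ∑ Q ∈ T, n Q * (rdeg (μ.comp C) Q : ℤ) = (p.natDegree : ℤ) - q.natDegree) ∧
      (∀ T : Finset (Ideal S), (∀ Q ∈ T, Q.IsMaximal ∧ μ X ∈ Q) →
        (∀ Q : Ideal S, Q.IsMaximal → μ X ∈ Q → n Q ≠ 0 → Q ∈ T) →
        ∑ Q ∈ T, n Q * (rdeg (μ.comp C) Q : ℤ)
          = (p.natTrailingDegree : ℤ) - q.natTrailingDegree) := by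
    intro S _ _ _ _ μ hf hi n hn φ hφ
    letI : Algebra F[X] S := μ.toAlgebra
    letI : Algebra F S := (μ.comp C).toAlgebra
    haveI : IsScalarTower F F[X] S := IsScalarTower.of_algebraMap_eq' rfl
    haveI : Module.Finite F[X] S := hf
    letI : Algebra (FractionRing F[X]) K := φ.toAlgebra
    letI : Algebra F[X] K := ((algebraMap S K).comp μ).toAlgebra
    haveI : IsScalarTower F[X] S K := IsScalarTower.of_algebraMap_eq' rfl
    haveI : IsScalarTower F[X] (FractionRing F[X]) K :=
      IsScalarTower.of_algebraMap_eq (fun P => (hφ P).symm)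
    exact chart (S := S) (K := K) hi g hg n hn
  obtain ⟨p, q, hp, hq, hN, hs, -⟩ := key μ₁ hf1 hi1 n₁ hn1 φ₁ hφ₁
  obtain ⟨p', q', hp', hq', hN', -, hs'⟩ := key μ₂ hf2 hi2 n₂ hn2 φ₂ hφ₂
  rw [hs T₁ hT1 hT1', hs' T₂ hT2 hT2']
  apply degree_rel p q p' q' hp hq hp' hq' _ _ hN hN'
  have hcomp : φ₂.comp ((sube F : FractionRing F[X] ≃+* FractionRing F[X]) : FractionRing F[X] →+* FractionRing F[X])
      = ((RingEquiv.refl K : K ≃+* K) : K →+* K).comp φ₁ := by
    ext x
    change φ₁ (sub1 F (sub1 F x)) = φ₁ x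
    have := congrArg (fun f : FractionRing F[X] →+* FractionRing F[X] => f x) (sub1_sub1 (F := F))
    exact congrArg φ₁ this
  have h := @Algebra.norm_eq_of_equiv_equiv (FractionRing F[X]) K (FractionRing F[X]) K _ _ _ _
    φ₁.toAlgebra φ₂.toAlgebra (sube F) (RingEquiv.refl K) hcomp g
  rw [h]
  rfl

end H45.PB
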