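import Mathlib
import Pool.Agent.H45.PB.M1A
import Pool.Agent.H45.CH0Curve
import Pool.Agent.H41.TotP1
set_option autoImplicit false

/-! # M1B: rationally trivial zero-cycles on the projective line have degree zero

Proof.  Write `q` for the structure morphism; let `z = push p d` be a generator of `Rat W` (`AddSubgroup.closure_induction`, `push`
is additive): `p : C ⟶ W` finite, `C` integral, the stalks at the closed points are discrete valuation rings, `d` is the divisor
of `g ≠ 0`.  `(push q (push p d)) pt = ∑ c ∈ d.support, d c * (p.residueDegree c * q.residueDegree (p c))` and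
`p.residueDegree c * q.residueDegree (p c) = [κ(c) : F]` (tower law for residue fields, see `nrm_tower` in `CH0Ev`); in terms
of an affine open `U ∋ c` it is `rdeg (F → Γ(C, U)) (prime ideal of c)`, see `norm_prime` in `CH0Curve`.
Let `Uᵢ = p ⁻¹ᵁ ιᵢ.opensRange`, affine since `p` is finite, `Sᵢ = Γ(C, Uᵢ)`, `μᵢ : F[X] → Sᵢ` (sections of `W` over the
chart, `H41.Tot.sec`, followed by `p.app`), a finite homomorphism.  `K = C.functionField`.
If `Uᵢ` is non-empty then `μᵢ` is injective: otherwise `Sᵢ` is a domain, finite over the field `F[X] / ker`, hence a field, and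
the stalk at its point (closed in `C`: `W` is a Jacobson space, `LocallyOfFiniteType.jacobsonSpace`) would be a field and not a
discrete valuation ring (compare the beginning of the proof of `ring_reciprocity`).  So the generic point of `C` goes to the
generic point of `W`, which is in both charts, and both `Uᵢ` are non-empty.
In `K` one has `μ₁ X * μ₂ X = 1`, `μ₁ (C c) = μ₂ (C c)`: from `hglue` (`H41.Tot.rf_rel` with `P = X`, `P = C c`, or directly from
sections on the intersection) pulled back to `C`.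
Apply `degree_zero` with `nᵢ Q = d (point of Q)`, exactly as in the proof of `curve_reciprocity` in `CH0Curve` (which is the model
for the whole argument), `T₁` = the points of the support of `d` in `U₁`, `T₂` = the points of the support of `d` not in `U₁`:
these are the points of `U₂` where `μ₂ X` vanishes, by `H41.Tot.range_or`.  -/

namespace H45.PB
open AlgebraicGeometry CategoryTheory CategoryTheory.Limits Polynomial H45.CH0 H41.Tot

section
variable {F : Type} [Field F] {W W' : Scheme.{0}}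

/-- degree over the base field of the residue field -/
noncomputable def m1b_deg (σ : W ⟶ Spec (.of F)) (w : W) : ℕ :=
  @Module.finrank F (W.residueField w) _ _ (kalg σ w).toModule

lemma m1b_deg_comp (σ : W ⟶ Spec (.of F)) (q : W' ⟶ W) (w : W') :
    m1b_deg (q ≫ σ) w = m1b_deg σ (q w) * q.residueDegree w := by
  let a1 : Algebra F (W.residueField (q w)) := kalg σ (q w)
  let a2 : Algebra F (W'.residueField w) := kalg (q ≫ σ) w
  let a3 : Algebra (W.residueField (q w)) (W'.residueField w) := (q.residueFieldMap w).hom.toAlgebra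
  have hst : IsScalarTower F (W.residueField (q w)) (W'.residueField w) := by
    apply IsScalarTower.of_algebraMap_eq
    intro a
    exact ev_comp σ q w a
  exact (Module.finrank_mul_finrank F (W.residueField (q w)) (W'.residueField w)).symm

lemma m1b_deg_base (x : Spec (.of F)) : m1b_deg (𝟙 (Spec (.of F))) x = 1 := by
  let alg : Algebra F ((Spec (.of F)).residueField x) := kalg (𝟙 (Spec (.of F))) x
  change Module.finrank F ((Spec (.of F)).residueField x) = 1
  rw [finrank_eq_one_iff_of_nonzero' (1 : (Spec (.of F)).residueField x) one_ne_zero]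
  intro z
  obtain ⟨c, hc⟩ := ev_id_surjective x z
  refine ⟨c, ?_⟩
  rw [Algebra.smul_def, mul_one]
  exact hc

lemma m1b_residueDegree (σ : W ⟶ Spec (.of F)) (w : W) : σ.residueDegree w = m1b_deg σ w := by
  have h := m1b_deg_comp (𝟙 _) σ w
  rw [Category.comp_id, m1b_deg_base, one_mul] at h
  exact h.symm

lemma m1b_push_push {X Y : Scheme.{0}} (f : X ⟶ Y) (q : Y ⟶ Spec (.of F)) (z : X →₀ ℤ)
    (h : ∑ x ∈ z.support, z x * (m1b_deg (f ≫ q) x : ℤ) = 0) : push q (push f z) = 0 := by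
  classical
  let pt : Spec (.of F) := ⟨⊥, Ideal.isPrime_bot⟩
  have hpt : ∀ y : Spec (.of F), y = pt := fun y => Subsingleton.elim _ _
  have key : push q (push f z) = Finsupp.single pt (∑ x ∈ z.support, z x * (m1b_deg (f ≫ q) x : ℤ)) := by
    have h1 : push f z = ∑ x ∈ z.support, Finsupp.single (f x) (z x * (f.residueDegree x : ℤ)) := rfl
    have hadd : ∀ a b : Y →₀ ℤ, push q (a + b) = push q a + push q b := by
      intro a b
      unfold push
      rw [Finsupp.sum_add_index']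
      · intro y; rw [zero_mul, Finsupp.single_zero]
      · intro y m n; rw [add_mul, Finsupp.single_add]
    let pq : (Y →₀ ℤ) →+ (Spec (.of F) →₀ ℤ) :=
      ⟨⟨push q, by unfold push; simp⟩, hadd⟩
    have h2 : push q (push f z) = pq (push f z) := rfl
    rw [h2, h1, map_sum, Finsupp.single_finsetSum]
    apply Finset.sum_congr rfl
    intro x _
    change push q _ = _
    rw [push_single, hpt (q (f x)), m1b_residueDegree, m1b_deg_comp]
    congr 1
    push_cast
    ring
  rw [key, h, Finsupp.single_zero]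

end

section
variable {F : Type} [Field F] {C : Scheme.{0}} (σC : C ⟶ Spec (.of F)) {U : C.Opens} (hU : IsAffineOpen U)
  (j : F →+* Γ(C, U)) (hj : ∀ (c : C) (hc : c ∈ U) (z : F), C.evaluation U c hc (j z) = ev σC c z)

include hj in
lemma m1b_rdeg (c : C) (hc : c ∈ U) (hcl : IsClosed ({c} : Set C)) :
    rdeg j (qId hU c) = m1b_deg σC c := by
  rw [qId_eq hU c hc]
  let _ : Algebra F (C.residueField c) := kalg σC c
  let alg : Algebra Γ(C, U) (C.presheaf.stalk c) := TopCat.Presheaf.algebra_section_stalk C.presheaf ⟨c, hc⟩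
  have hmax : (hU.primeIdealOf ⟨c, hc⟩).asIdeal.IsMaximal := hU.primeIdealOf_isMaximal_of_isClosed ⟨c, hc⟩ hcl
  have hloc : IsLocalization.AtPrime (C.presheaf.stalk c) (hU.primeIdealOf ⟨c, hc⟩).asIdeal :=
    hU.isLocalization_stalk ⟨c, hc⟩
  let e : (Γ(C, U) ⧸ (hU.primeIdealOf ⟨c, hc⟩).asIdeal) ≃+* (C.residueField c) :=
    IsLocalization.AtPrime.equivQuotMaximalIdeal (hU.primeIdealOf ⟨c, hc⟩).asIdeal (C.presheaf.stalk c)
  have he : ∀ z : Γ(C, U), e (Ideal.Quotient.mk _ z) = C.evaluation U c hc z := by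
    intro z
    exact IsLocalization.AtPrime.equivQuotMaximalIdeal_apply_mk _ _ _
  let _ : Algebra F (Γ(C, U) ⧸ (hU.primeIdealOf ⟨c, hc⟩).asIdeal) :=
    ((Ideal.Quotient.mk (hU.primeIdealOf ⟨c, hc⟩).asIdeal).comp j).toAlgebra
  let e' : (Γ(C, U) ⧸ (hU.primeIdealOf ⟨c, hc⟩).asIdeal) ≃ₐ[F] (C.residueField c) :=
    AlgEquiv.ofRingEquiv (f := e) (by
      intro w
      have h1 : algebraMap F (Γ(C, U) ⧸ (hU.primeIdealOf ⟨c, hc⟩).asIdeal) w =
        Ideal.Quotient.mk _ (j w) := rfl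
      rw [h1, he, hj c hc]
      rfl)
  exact e'.toLinearEquiv.finrank_eq

end

section
variable {F : Type} [Field F] {W C : Scheme.{0}} (ι : Spec (.of F[X]) ⟶ W) [IsOpenImmersion ι]
  (p : C ⟶ W)

/-- the functions of the chart on the curve -/
noncomputable def m1b_mu : F[X] →+* Γ(C, p ⁻¹ᵁ ι.opensRange) := (p.app ι.opensRange).hom.comp (sec ι)

lemma m1b_germ (c : C) (hc : c ∈ p ⁻¹ᵁ ι.opensRange) (a : F[X]) :
    C.presheaf.germ (p ⁻¹ᵁ ι.opensRange) c hc (m1b_mu ι p a) = (p.stalkMap c).hom (gm ι (p c) hc a) := by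
  unfold m1b_mu gm
  simp only [RingHom.comp_apply]
  exact (Scheme.Hom.germ_stalkMap_apply p ι.opensRange c hc _).symm

/-- value at a point -/
lemma m1b_eval (c : C) (hc : c ∈ p ⁻¹ᵁ ι.opensRange) (a : F[X]) :
    C.evaluation (p ⁻¹ᵁ ι.opensRange) c hc (m1b_mu ι p a) =
      (p.residueFieldMap c).hom (W.evaluation ι.opensRange (p c) hc (sec ι a)) :=
  (Scheme.evaluation_naturality_apply p c hc (sec ι a)).symm

lemma m1b_eval_chart (m : Spec (.of F[X])) (a : F[X]) :
    (ι.residueFieldMap m).hom (W.evaluation ι.opensRange (ι m) ⟨m, rfl⟩ (sec ι a)) = ev (𝟙 _) m a := by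
  rw [ev_eq_evaluation]
  have h1 : (ι.residueFieldMap m).hom (W.residue (ι m) (gm ι (ι m) ⟨m, rfl⟩ a)) =
      (Spec (.of F[X])).residue m ((ι.stalkMap m).hom (gm ι (ι m) ⟨m, rfl⟩ a)) :=
    congrArg (fun f => f.hom (gm ι (ι m) ⟨m, rfl⟩ a)) (Scheme.residue_residueFieldMap ι m)
  rw [stalkMap_gm, stAlg_apply] at h1
  refine h1.trans ?_
  unfold gam
  simp
  rfl


lemma m1b_ev_id {R : CommRingCat.{0}} (m : Spec R) (a : R) : ev (𝟙 (Spec R)) m a = 0 ↔ a ∈ m.asIdeal := by
  rw [ev_eq_evaluation]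
  have h1 := Scheme.evaluation_eq_zero_iff_notMem_basicOpen (X := Spec R) (U := ⊤) m trivial
    ((gam (𝟙 (Spec R))).hom a)
  rw [h1]
  have h2 : (gam (𝟙 (Spec R))).hom a = (Scheme.ΓSpecIso R).inv a := by
    unfold gam; simp
  rw [h2, basicOpen_eq_of_affine]
  exact not_not

lemma m1b_const (q : W ⟶ Spec (.of F)) (hq : ι ≫ q = Spec.map (CommRingCat.ofHom (Polynomial.C : F →+* F[X])))
    (w : W) (hw : w ∈ ι.opensRange) (z : F) :
    W.evaluation ι.opensRange w hw (sec ι (Polynomial.C z)) = ev q w z := by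
  obtain ⟨m, rfl⟩ := hw
  apply (ι.residueFieldMap m).hom.injective
  rw [m1b_eval_chart, ← ev_comp, hq]
  have h := ev_spec (𝟙 (Spec (.of F[X]))) (CommRingCat.ofHom (Polynomial.C : F →+* F[X])) m z
  rw [Category.id_comp] at h
  exact h.symm

lemma m1b_const' (q : W ⟶ Spec (.of F)) (hq : ι ≫ q = Spec.map (CommRingCat.ofHom (Polynomial.C : F →+* F[X])))
    (c : C) (hc : c ∈ p ⁻¹ᵁ ι.opensRange) (z : F) :
    C.evaluation (p ⁻¹ᵁ ι.opensRange) c hc (m1b_mu ι p (Polynomial.C z)) = ev (p ≫ q) c z := by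
  refine (m1b_eval ι p c hc _).trans ?_
  refine (congrArg (p.residueFieldMap c).hom (m1b_const ι q hq (p c) hc z)).trans ?_
  exact (ev_comp q p c z).symm

lemma m1b_vanish (w : W) (hw : w ∈ ι.opensRange) :
    W.evaluation ι.opensRange w hw (sec ι (X : F[X])) = 0 ↔ w = ι (org F) := by
  obtain ⟨m, rfl⟩ := hw
  rw [← map_eq_zero_iff _ (ι.residueFieldMap m).hom.injective, m1b_eval_chart, m1b_ev_id]
  constructor
  · intro h
    rw [eq_org m h]
  · intro h
    rw [ι.isOpenEmbedding.injective h]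
    exact Ideal.mem_span_singleton_self _

lemma m1b_vanish' (c : C) (hc : c ∈ p ⁻¹ᵁ ι.opensRange) :
    C.evaluation (p ⁻¹ᵁ ι.opensRange) c hc (m1b_mu ι p X) = 0 ↔ p c = ι (org F) := by
  refine Iff.trans ?_ (m1b_vanish ι (p c) hc)
  rw [m1b_eval]
  exact map_eq_zero_iff _ (p.residueFieldMap c).hom.injective

lemma m1b_affine [IsAffineHom p] : IsAffineOpen (p ⁻¹ᵁ ι.opensRange) :=
  (isAffineOpen_opensRange ι).preimage p

lemma m1b_finite [IsFinite p] : (m1b_mu ι p).Finite := by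
  unfold m1b_mu
  apply RingHom.Finite.comp
  · exact IsFinite.finite_app p _ (isAffineOpen_opensRange ι)
  · apply RingHom.Finite.of_surjective
    exact ((Scheme.ΓSpecIso (.of F[X])).symm ≪≫ (IsOpenImmersion.ΓIsoTop ι)).commRingCatIsoToRingEquiv.surjective

end

section
variable {F : Type} [Field F] {C : Scheme.{0}} (σC : C ⟶ Spec (.of F)) {U : C.Opens} (hU : IsAffineOpen U)

include hU in
lemma m1b_mem_qId (c : C) (hc : c ∈ U) (a : Γ(C, U)) : a ∈ qId hU c ↔ C.evaluation U c hc a = 0 := by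
  rw [qId_eq hU c hc]
  let alg : Algebra Γ(C, U) (C.presheaf.stalk c) := TopCat.Presheaf.algebra_section_stalk C.presheaf ⟨c, hc⟩
  have hloc : IsLocalization.AtPrime (C.presheaf.stalk c) (hU.primeIdealOf ⟨c, hc⟩).asIdeal :=
    hU.isLocalization_stalk ⟨c, hc⟩
  have h1 := IsLocalization.AtPrime.to_map_mem_maximal_iff (C.presheaf.stalk c)
    (hU.primeIdealOf ⟨c, hc⟩).asIdeal a
  rw [← h1]
  exact (IsLocalRing.residue_eq_zero_iff (R := C.presheaf.stalk c) _).symm

lemma m1b_closed [LocallyOfFiniteType σC] (Q : Spec Γ(C, U)) (hQ : Q.asIdeal.IsMaximal) :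
    IsClosed ({hU.fromSpec Q} : Set C) := by
  have hjac : JacobsonSpace C := LocallyOfFiniteType.jacobsonSpace σC
  have h1 : IsClosed ({Q} : Set (Spec Γ(C, U))) := (PrimeSpectrum.isClosed_singleton_iff_isMaximal Q).mpr hQ
  apply isClosed_singleton_of_isLocallyClosed_singleton
  have h2 : ({hU.fromSpec Q} : Set C) = hU.fromSpec '' {Q} := Set.image_singleton.symm
  rw [h2]
  exact (h1.isLocallyClosed.image hU.fromSpec.isOpenEmbedding.isInducing
    hU.fromSpec.isOpenEmbedding.isOpen_range.isLocallyClosed)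

include hU in
lemma m1b_not_field [IsIntegral C] [LocallyOfFiniteType σC] (hne : Nonempty U)
    (hdvr : ∀ c : C, IsClosed ({c} : Set C) → IsDiscreteValuationRing (C.presheaf.stalk c)) :
    ¬ IsField Γ(C, U) := by
  intro hf
  let Q : Spec Γ(C, U) := (⟨⊥, Ideal.isPrime_bot⟩ : PrimeSpectrum Γ(C, U))
  have hQ : Q.asIdeal.IsMaximal := by
    change (⊥ : Ideal Γ(C, U)).IsMaximal
    let _ := hf.toField
    exact Ideal.bot_isMaximal
  have hd := hdvr _ (m1b_closed σC hU Q hQ)
  have hmem := fromSpec_mem hU Q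
  let alg : Algebra Γ(C, U) (C.presheaf.stalk (hU.fromSpec Q)) :=
    TopCat.Presheaf.algebra_section_stalk C.presheaf ⟨hU.fromSpec Q, hmem⟩
  have hloc : IsLocalization.AtPrime (C.presheaf.stalk (hU.fromSpec Q)) Q.asIdeal :=
    hU.isLocalization_stalk' Q hmem
  have h1 := IsLocalization.AtPrime.map_eq_maximalIdeal Q.asIdeal (C.presheaf.stalk (hU.fromSpec Q))
  have h2 : Q.asIdeal = ⊥ := rfl
  rw [h2, Ideal.map_bot] at h1
  exact IsDiscreteValuationRing.not_a_field (C.presheaf.stalk (hU.fromSpec Q)) h1.symm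

end

section
variable {F : Type} [Field F] {W C : Scheme.{0}} (ι : Spec (.of F[X]) ⟶ W) [IsOpenImmersion ι]
  (p : C ⟶ W) [IsIntegral C] [IsFinite p] (σC : C ⟶ Spec (.of F)) [LocallyOfFiniteType σC]

include σC in
lemma m1b_injective (hne : Nonempty (p ⁻¹ᵁ ι.opensRange))
    (hdvr : ∀ c : C, IsClosed ({c} : Set C) → IsDiscreteValuationRing (C.presheaf.stalk c)) :
    Function.Injective (m1b_mu ι p) := by
  by_contra hcon
  apply m1b_not_field σC (m1b_affine ι p) hne hdvr
  have hker : RingHom.ker (m1b_mu ι p) ≠ ⊥ := by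
    intro h
    exact hcon ((RingHom.injective_iff_ker_eq_bot _).2 h)
  have hprime : (RingHom.ker (m1b_mu ι p)).IsPrime := RingHom.ker_isPrime _
  have hmax : (RingHom.ker (m1b_mu ι p)).IsMaximal := hprime.isMaximal hker
  have hfield : IsField (F[X] ⧸ RingHom.ker (m1b_mu ι p)) :=
    (Ideal.Quotient.maximal_ideal_iff_isField_quotient _).1 hmax
  let alg : Algebra (F[X] ⧸ RingHom.ker (m1b_mu ι p)) Γ(C, p ⁻¹ᵁ ι.opensRange) :=
    (RingHom.kerLift (m1b_mu ι p)).toAlgebra
  have hint : (RingHom.kerLift (m1b_mu ι p)).IsIntegral := by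
    have h1 : (m1b_mu ι p).IsIntegral := (m1b_finite ι p).to_isIntegral
    apply RingHom.IsIntegral.tower_top (Ideal.Quotient.mk (RingHom.ker (m1b_mu ι p)))
    exact h1
  have hint' : Algebra.IsIntegral (F[X] ⧸ RingHom.ker (m1b_mu ι p)) Γ(C, p ⁻¹ᵁ ι.opensRange) := ⟨hint⟩
  exact isField_of_isIntegral_of_isField' hfield

omit [IsFinite p] in
lemma m1b_generic (hη : genericPoint C ∈ p ⁻¹ᵁ ι.opensRange) (hinj : Function.Injective (m1b_mu ι p)) :
    ∃ m : Spec (.of F[X]), (X : F[X]) ∉ m.asIdeal ∧ ι m = p (genericPoint C) := by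
  obtain ⟨m, hm⟩ := id hη
  refine ⟨m, ?_, hm⟩
  intro hX
  have h1 : p (genericPoint C) = ι (org F) := by rw [← hm, eq_org m hX]
  have h2 := (m1b_vanish' ι p (genericPoint C) hη).2 h1
  have h3 : C.presheaf.germ (p ⁻¹ᵁ ι.opensRange) (genericPoint C) hη (m1b_mu ι p X) = 0 := by
    have hfield : IsField (C.presheaf.stalk (genericPoint C)) := Field.toIsField C.functionField
    have h4 : C.residue (genericPoint C)
      (C.presheaf.germ (p ⁻¹ᵁ ι.opensRange) (genericPoint C) hη (m1b_mu ι p X)) = 0 := h2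
    have h5 := (IsLocalRing.residue_eq_zero_iff (R := C.presheaf.stalk (genericPoint C)) _).1 h4
    rw [IsLocalRing.isField_iff_maximalIdeal_eq.1 hfield] at h5
    exact h5
  have h4 : m1b_mu ι p X = 0 := by
    apply germ_injective_of_isIntegral (X := C) (U := p ⁻¹ᵁ ι.opensRange) (genericPoint C) hη
    rw [h3, map_zero]
  exact X_ne_zero (R := F) (hinj (by rw [h4, map_zero]))

end

lemma m1b_lft {F : Type} [Field F] {W : Scheme.{0}}
    (ι₁ ι₂ : Spec (.of F[X]) ⟶ W) [IsOpenImmersion ι₁] [IsOpenImmersion ι₂]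
    (hcov : ∀ w : W, w ∈ ι₁.opensRange ∨ w ∈ ι₂.opensRange)
    (q : W ⟶ Spec (.of F)) (hq1 : ι₁ ≫ q = Spec.map (CommRingCat.ofHom (C : F →+* F[X])))
    (hq2 : ι₂ ≫ q = Spec.map (CommRingCat.ofHom (C : F →+* F[X]))) : LocallyOfFiniteType q := by
  have h0 : LocallyOfFiniteType (Spec.map (CommRingCat.ofHom (C : F →+* F[X]))) := by
    rw [HasRingHomProperty.Spec_iff (P := @LocallyOfFiniteType)]
    change (algebraMap F F[X]).FiniteType
    rw [RingHom.finiteType_algebraMap]
    infer_instance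
  have hloc : IsZariskiLocalAtSource.{0} @LocallyOfFiniteType :=
    HasRingHomProperty.instIsZariskiLocalAtSource (P := @LocallyOfFiniteType) (Q := RingHom.FiniteType)
  refine IsZariskiLocalAtSource.of_iSup_eq_top (P := @LocallyOfFiniteType)
    (fun b : Bool => cond b ι₁.opensRange ι₂.opensRange) ?_ ?_
  · ext w
    simp only [TopologicalSpace.Opens.iSup_mk, TopologicalSpace.Opens.coe_mk, Set.mem_iUnion,
      TopologicalSpace.Opens.coe_top, Set.mem_univ, iff_true]
    rcases hcov w with h | h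
    · exact ⟨true, h⟩
    · exact ⟨false, h⟩
  · rintro (_ | _)
    · change LocallyOfFiniteType (ι₂.opensRange.ι ≫ q)
      rw [← Scheme.Hom.isoOpensRange_inv_comp, Category.assoc, hq2]
      infer_instance
    · change LocallyOfFiniteType (ι₁.opensRange.ι ≫ q)
      rw [← Scheme.Hom.isoOpensRange_inv_comp, Category.assoc, hq1]
      infer_instance

lemma m1b_glue {F : Type} [Field F] {W : Scheme.{0}}
    (ι₁ ι₂ : Spec (.of F[X]) ⟶ W) [IsOpenImmersion ι₁] [IsOpenImmersion ι₂]
    (hglue : Spec.map (CommRingCat.ofHom (lau1 F)) ≫ ι₁ = Spec.map (CommRingCat.ofHom (lau2 F)) ≫ ι₂)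
    (w : W) (hw : w ∈ (Spec.map (CommRingCat.ofHom (lau1 F)) ≫ ι₁).opensRange)
    (h1 : w ∈ ι₁.opensRange) (h2 : w ∈ ι₂.opensRange) :
    (∀ z : F, gm ι₁ w h1 (Polynomial.C z) = gm ι₂ w h2 (Polynomial.C z)) ∧ gm ι₁ w h1 X * gm ι₂ w h2 X = 1 := by
  have e1 : ∀ a : F[X], gm ι₁ w h1 a = gm (Spec.map (CommRingCat.ofHom (lau1 F)) ≫ ι₁) w hw (lau1 F a) := by
    intro a
    exact (gm_comp ι₁ (CommRingCat.ofHom (lau1 F)) w hw h1 a).symm
  have hw2 : w ∈ (Spec.map (CommRingCat.ofHom (lau2 F)) ≫ ι₂).opensRange := by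
    have : ∀ (j j' : Spec (.of (LaurentPolynomial F)) ⟶ W) [IsOpenImmersion j] [IsOpenImmersion j'],
        j = j' → w ∈ j.opensRange → w ∈ j'.opensRange := by
      rintro j j' _ _ rfl h; exact h
    exact this _ _ hglue hw
  have e2 : ∀ a : F[X], gm ι₂ w h2 a = gm (Spec.map (CommRingCat.ofHom (lau1 F)) ≫ ι₁) w hw (lau2 F a) := by
    intro a
    have h3 := (gm_comp ι₂ (CommRingCat.ofHom (lau2 F)) w hw2 h2 a).symm
    exact h3.trans (gm_congr _ _ hglue.symm _ _ _ _)
  constructor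
  · intro z
    rw [e1, e2]
    congr 1
    unfold lau1 lau2
    simp
  · rw [e1, e2, ← map_mul]
    have : lau1 F X * lau2 F X = 1 := by
      unfold lau1 lau2
      simp only [RingHom.comp_apply]
      change toLaurent X * (LaurentPolynomial.invert (toLaurent X)) = 1
      rw [toLaurent_X, LaurentPolynomial.invert_T, ← LaurentPolynomial.T_add]
      simp
    rw [this, map_one]

theorem push_rat_eq_zero {F : Type} [Field F] [CharZero F] {W : Scheme.{0}} [IsIntegral W]
    (ι₁ ι₂ : Spec (.of F[X]) ⟶ W) [IsOpenImmersion ι₁] [IsOpenImmersion ι₂]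
    (hcov : ∀ w : W, w ∈ ι₁.opensRange ∨ w ∈ ι₂.opensRange)
    (hglue : Spec.map (CommRingCat.ofHom (lau1 F)) ≫ ι₁ = Spec.map (CommRingCat.ofHom (lau2 F)) ≫ ι₂)
    (hinf : ι₂ (org F) ∉ ι₁.opensRange)
    (q : W ⟶ Spec (.of F)) (hq1 : ι₁ ≫ q = Spec.map (CommRingCat.ofHom (C : F →+* F[X])))
    (hq2 : ι₂ ≫ q = Spec.map (CommRingCat.ofHom (C : F →+* F[X])))
    (z : W →₀ ℤ) (hz : z ∈ H45.CH0.Rat W) : push q z = 0 := by
  classical
  have hadd : ∀ a b : W →₀ ℤ, push q (a + b) = push q a + push q b := by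
    intro a b
    unfold push
    rw [Finsupp.sum_add_index']
    · intro y; rw [zero_mul, Finsupp.single_zero]
    · intro y m n; rw [add_mul, Finsupp.single_add]
  unfold H45.CH0.Rat at hz
  induction hz using AddSubgroup.closure_induction with
  | zero => unfold push; simp
  | add x y _ _ hx hy => rw [hadd, hx, hy, add_zero]
  | neg x _ hx =>
    have h1 := hadd x (-x)
    rw [add_neg_cancel, hx, zero_add] at h1
    rw [← h1]
    unfold push; simp
  | mem x hx =>
    obtain ⟨D, hD, p, hp, hdvr, g, d, hg, hd, rfl⟩ := hx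
    apply m1b_push_push
    have hlft := m1b_lft ι₁ ι₂ hcov q hq1 hq2
    have hlft' : LocallyOfFiniteType (p ≫ q) := inferInstance
    -- the generic point goes to the intersection of the charts
    have hgen : p (genericPoint D) ∈ (Spec.map (CommRingCat.ofHom (lau1 F)) ≫ ι₁).opensRange := by
      rcases hcov (p (genericPoint D)) with h | h
      · obtain ⟨m, hm1, hm2⟩ := m1b_generic ι₁ p h
          (m1b_injective ι₁ p (p ≫ q) ⟨⟨genericPoint D, h⟩⟩ hdvr)
        obtain ⟨m', hm'⟩ := range_lau1 F m hm1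
        exact ⟨m', by rw [← hm2, ← hm']; rfl⟩
      · obtain ⟨m, hm1, hm2⟩ := m1b_generic ι₂ p h
          (m1b_injective ι₂ p (p ≫ q) ⟨⟨genericPoint D, h⟩⟩ hdvr)
        obtain ⟨m', hm'⟩ := range_lau2 F m hm1
        refine ⟨m', ?_⟩
        rw [← hm2, ← hm']
        exact congrArg (fun f => f m') hglue
    have hg1 : genericPoint D ∈ p ⁻¹ᵁ ι₁.opensRange := by
      obtain ⟨m, hm⟩ := hgen
      exact ⟨(Spec.map (CommRingCat.ofHom (lau1 F))) m, hm⟩
    have hg2 : genericPoint D ∈ p ⁻¹ᵁ ι₂.opensRange := by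
      obtain ⟨m, hm⟩ := hgen
      refine ⟨(Spec.map (CommRingCat.ofHom (lau2 F))) m, ?_⟩
      exact (congrArg (fun f => f m) hglue.symm).trans hm
    have hne1 : Nonempty (p ⁻¹ᵁ ι₁.opensRange) := ⟨⟨_, hg1⟩⟩
    have hne2 : Nonempty (p ⁻¹ᵁ ι₂.opensRange) := ⟨⟨_, hg2⟩⟩
    have hU1 := m1b_affine ι₁ p
    have hU2 := m1b_affine ι₂ p
    have hfrac1 : IsFractionRing Γ(D, p ⁻¹ᵁ ι₁.opensRange) D.functionField :=
      functionField_isFractionRing_of_isAffineOpen D _ hU1
    have hfrac2 : IsFractionRing Γ(D, p ⁻¹ᵁ ι₂.opensRange) D.functionField :=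
      functionField_isFractionRing_of_isAffineOpen D _ hU2
    obtain ⟨hgl1, hgl2⟩ := m1b_glue ι₁ ι₂ hglue _ hgen hg1 hg2
    let n : (U : D.Opens) → (hU : IsAffineOpen U) → Ideal Γ(D, U) → ℤ :=
      fun U hU Q => if h : Q.IsPrime then d (hU.fromSpec ⟨Q, h⟩) else 0
    have hn : ∀ (U : D.Opens) (hU : IsAffineOpen U) (Q : Ideal Γ(D, U)) (h : Q.IsPrime),
        n U hU Q = d (hU.fromSpec ⟨Q, h⟩) := by
      intro U hU Q h
      simp only [n]
      rw [dif_pos h]
    have hnq : ∀ (U : D.Opens) (hU : IsAffineOpen U) (c : D), c ∈ U → n U hU (qId hU c) = d c := by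
      intro U hU c hc
      rw [qId_eq hU c hc, hn U hU _ (hU.primeIdealOf ⟨c, hc⟩).isPrime]
      congr 1
      exact hU.fromSpec_primeIdealOf ⟨c, hc⟩
    have hinj : ∀ (U : D.Opens) (hU : IsAffineOpen U) (c c' : D), c ∈ U → c' ∈ U → qId hU c = qId hU c' →
        c = c' := by
      intro U hU c c' hc hc' h
      rw [qId_eq hU c hc, qId_eq hU c' hc'] at h
      have h1 : hU.primeIdealOf ⟨c, hc⟩ = hU.primeIdealOf ⟨c', hc'⟩ := PrimeSpectrum.ext h
      have h2 := congrArg hU.fromSpec h1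
      rwa [hU.fromSpec_primeIdealOf, hU.fromSpec_primeIdealOf] at h2
    have hqmax : ∀ (U : D.Opens) (hU : IsAffineOpen U) (c : D), c ∈ U → c ∈ d.support →
        (qId hU c).IsMaximal := by
      intro U hU c hc hcd
      rw [qId_eq hU c hc]
      exact hU.primeIdealOf_isMaximal_of_isClosed ⟨c, hc⟩ (hd.isZeroCycle c hcd)
    have hord : ∀ (U : D.Opens) (hU : IsAffineOpen U) (hne : Nonempty U),
        IsFractionRing Γ(D, U) D.functionField → ∀ Q : Ideal Γ(D, U), Q.IsMaximal → LocOrd Q g (n U hU Q) := by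
      intro U hU hne hfr Q hQ hQp
      have hmem := fromSpec_mem hU ⟨Q, hQp⟩
      have hcl := m1b_closed (p ≫ q) hU ⟨Q, hQp⟩ hQ
      refine ⟨D.presheaf.stalk (hU.fromSpec ⟨Q, hQp⟩), inferInstance, inferInstance, hdvr _ hcl,
        TopCat.Presheaf.algebra_section_stalk D.presheaf ⟨hU.fromSpec ⟨Q, hQp⟩, hmem⟩,
        hU.isLocalization_stalk' ⟨Q, hQp⟩ hmem, inferInstance,
        functionField_isScalarTower D U ⟨hU.fromSpec ⟨Q, hQp⟩, hmem⟩, inferInstance, ?_⟩
      rw [hn U hU Q hQp]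
      exact hd.isOrd _ hcl
    have key := degree_zero (K := D.functionField) (m1b_mu ι₁ p) (m1b_mu ι₂ p) (m1b_finite ι₁ p) (m1b_finite ι₂ p)
      (m1b_injective ι₁ p (p ≫ q) hne1 hdvr) (m1b_injective ι₂ p (p ≫ q) hne2 hdvr)
      (by
        intro c
        have h1 := m1b_germ ι₁ p _ hg1 (C c)
        have h2 := m1b_germ ι₂ p _ hg2 (C c)
        have h3 := congrArg (p.stalkMap (genericPoint D)).hom (hgl1 c)
        exact h1.trans (h3.trans h2.symm))
      (by
        have h1 := m1b_germ ι₁ p _ hg1 X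
        have h2 := m1b_germ ι₂ p _ hg2 X
        have h3 := congrArg (p.stalkMap (genericPoint D)).hom hgl2
        rw [map_mul, map_one] at h3
        exact (congrArg₂ (· * ·) h1 h2).trans h3)
      g hg (n _ hU1) (n _ hU2) (hord _ hU1 hne1 hfrac1) (hord _ hU2 hne2 hfrac2)
      ((d.support.filter (fun c => c ∈ p ⁻¹ᵁ ι₁.opensRange)).image (qId hU1))
      (by
        intro Q hQ
        rw [Finset.mem_image] at hQ
        obtain ⟨c, hc, rfl⟩ := hQ
        rw [Finset.mem_filter] at hc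
        exact hqmax _ hU1 c hc.2 hc.1)
      (by
        intro Q hQ hnQ
        rw [hn _ hU1 Q hQ.isPrime] at hnQ
        rw [Finset.mem_image]
        refine ⟨hU1.fromSpec ⟨Q, hQ.isPrime⟩, ?_, qId_fromSpec hU1 _⟩
        rw [Finset.mem_filter]
        exact ⟨Finsupp.mem_support_iff.mpr hnQ, fromSpec_mem hU1 _⟩)
      ((d.support.filter (fun c => ¬ c ∈ p ⁻¹ᵁ ι₁.opensRange)).image (qId hU2))
      (by
        intro Q hQ
        rw [Finset.mem_image] at hQ
        obtain ⟨c, hc, rfl⟩ := hQ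
        rw [Finset.mem_filter] at hc
        have h1 : p c = ι₂ (org F) := (range_or ι₁ ι₂ hcov hglue (p c)).resolve_left hc.2
        have h2 : c ∈ p ⁻¹ᵁ ι₂.opensRange := ⟨org F, h1.symm⟩
        refine ⟨hqmax _ hU2 c h2 hc.1, ?_⟩
        rw [m1b_mem_qId hU2 c h2, m1b_vanish' ι₂ p c h2]
        exact h1)
      (by
        intro Q hQ hXQ hnQ
        rw [hn _ hU2 Q hQ.isPrime] at hnQ
        rw [Finset.mem_image]
        refine ⟨hU2.fromSpec ⟨Q, hQ.isPrime⟩, ?_, qId_fromSpec hU2 _⟩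
        rw [Finset.mem_filter]
        refine ⟨Finsupp.mem_support_iff.mpr hnQ, ?_⟩
        intro h
        have hmem := fromSpec_mem hU2 ⟨Q, hQ.isPrime⟩
        have h1 : m1b_mu ι₂ p X ∈ qId hU2 (hU2.fromSpec ⟨Q, hQ.isPrime⟩) := by
          rw [qId_fromSpec hU2]; exact hXQ
        rw [m1b_mem_qId hU2 _ hmem, m1b_vanish' ι₂ p _ hmem] at h1
        exact hinf (h1 ▸ h))
    rw [Finset.sum_image, Finset.sum_image] at key
    · rw [← Finset.sum_filter_add_sum_filter_not d.support (fun c => c ∈ p ⁻¹ᵁ ι₁.opensRange)]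
      rw [← key]
      congr 1
      · apply Finset.sum_congr rfl
        intro c hc
        rw [Finset.mem_filter] at hc
        rw [hnq _ hU1 c hc.2, m1b_rdeg (p ≫ q) hU1 ((m1b_mu ι₁ p).comp C) (fun c hc z => m1b_const' ι₁ p q hq1 c hc z)
          c hc.2 (hd.isZeroCycle c hc.1)]
      · apply Finset.sum_congr rfl
        intro c hc
        rw [Finset.mem_filter] at hc
        have h1 : p c = ι₂ (org F) := (range_or ι₁ ι₂ hcov hglue (p c)).resolve_left hc.2
        have h2 : c ∈ p ⁻¹ᵁ ι₂.opensRange := ⟨org F, h1.symm⟩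
        rw [hnq _ hU2 c h2, m1b_rdeg (p ≫ q) hU2 ((m1b_mu ι₂ p).comp C) (fun c hc z => m1b_const' ι₂ p q hq2 c hc z)
          c h2 (hd.isZeroCycle c hc.1)]
    · intro c hc c' hc' h
      rw [Finset.coe_filter] at hc hc'
      have h1 : p c = ι₂ (org F) := (range_or ι₁ ι₂ hcov hglue (p c)).resolve_left hc.2
      have h2 : c ∈ p ⁻¹ᵁ ι₂.opensRange := ⟨org F, h1.symm⟩
      have h1' : p c' = ι₂ (org F) := (range_or ι₁ ι₂ hcov hglue (p c')).resolve_left hc'.2
      have h2' : c' ∈ p ⁻¹ᵁ ι₂.opensRange := ⟨org F, h1'.symm⟩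
      exact hinj _ hU2 c c' h2 h2' h
    · intro c hc c' hc' h
      rw [Finset.coe_filter] at hc hc'
      exact hinj _ hU1 c c' hc.2 hc'.2 h

end H45.PB
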