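import Mathlib
import Pool.Agent.H41.TotRing
set_option autoImplicit false

/-! # The ring of functions on `Y`, the base change of `X : a² = s b² + t c²` to `s = σ²` -/

namespace H45.PB
open Polynomial H45.CH0 H41.Tot

/-- coordinate ring of `Y`, obtained by adjoining a square root of `s` -/
abbrev RY : Type := QuadraticAlgebra RX sR 0

noncomputable instance : Algebra ℂ RY := inferInstance

/-- the functions on `Y` -/
noncomputable def σY : RY := qw sR
/-- the functions on `Y` -/
noncomputable def tY : RY := algebraMap RX RY tR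
/-- the functions on `Y` -/
noncomputable def rY : RY := algebraMap RX RY cR
/-- the functions on `Y` -/
noncomputable def qY : RY := algebraMap RX RY aR + σY * algebraMap RX RY bR

lemma isUnit_tY : IsUnit tY := isUnit_tA.map _

lemma σY_sq : σY ^ 2 = algebraMap RX RY sR := qw_sq

lemma isUnit_σY : IsUnit σY := by
  have h : IsUnit (σY ^ 2) := by
    rw [σY_sq]; exact isUnit_sA.map _
  exact (isUnit_pow_iff two_ne_zero).1 h

/-- the functions on `Y` -/
noncomputable def pY : RY := ↑(isUnit_tY.unit⁻¹) * (algebraMap RX RY aR - σY * algebraMap RX RY bR)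

lemma tpY : tY * pY = algebraMap RX RY aR - σY * algebraMap RX RY bR := by
  unfold pY
  rw [← mul_assoc, IsUnit.mul_val_inv, one_mul]

lemma pqY : pY * qY = rY ^ 2 := by
  have h1 : tY * (pY * qY) = tY * rY ^ 2 := by
    rw [← mul_assoc, tpY]
    unfold qY rY tY
    have h2 := congrArg (algebraMap RX RY) aA_sq
    rw [map_pow, map_add, map_mul, map_mul, map_pow, map_pow] at h2
    have h3 := σY_sq
    linear_combination h2 - (algebraMap RX RY bR) ^ 2 * h3
  exact isUnit_tY.mul_left_cancel h1

lemma aY_eq : 2 * algebraMap RX RY aR = qY + tY * pY := by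
  rw [tpY]; unfold qY; ring

lemma bY_eq : 2 * (σY * algebraMap RX RY bR) = qY - tY * pY := by
  rw [tpY]; unfold qY; ring

section
variable {T : Type*} [CommRing T] (i : ℂ →+* T) (σ t p q r : T) (hσ : IsUnit σ) (ht : IsUnit t)
  (h : p * q = r ^ 2)

lemma two_half : i (1 / 2) * 2 = 1 := by
  have h1 : (2 : T) = i 2 := by rw [map_ofNat]
  rw [h1, ← map_mul]
  norm_num

/-- construction of homomorphisms from the coordinate ring of `Y` -/
noncomputable def ryLift : RY →+* T :=
  qLift (rxLift i (σ ^ 2) t (i (1 / 2) * (↑(hσ.unit⁻¹) * (q - t * p))) r (i (1 / 2) * (q + t * p))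
    (hσ.pow 2) ht (by
      have h1 : σ * ↑(hσ.unit⁻¹) = 1 := hσ.mul_val_inv
      have h2 := two_half i
      obtain ⟨w, hw⟩ : ∃ w, w = (↑(hσ.unit⁻¹) : T) := ⟨_, rfl⟩
      obtain ⟨m, hm⟩ : ∃ m, m = i (1 / 2) := ⟨_, rfl⟩
      rw [← hw] at h1
      rw [← hm] at h2
      rw [← hw, ← hm]
      have h3 : σ ^ 2 * (m * (w * (q - t * p))) ^ 2 = (σ * w) ^ 2 * (m * (q - t * p)) ^ 2 := by ring
      rw [h3, h1]
      have h4 : (m * (q + t * p)) ^ 2 = (1 : T) ^ 2 * (m * (q - t * p)) ^ 2 + (m * 2) ^ 2 * (t * (p * q)) := by ring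
      rw [h4, h2, h]
      ring)) σ (by rw [rxLift_s])

lemma ryLift_C (z : ℂ) : ryLift i σ t p q r hσ ht h (algebraMap ℂ RY z) = i z := by
  have h1 : algebraMap ℂ RY z = algebraMap RX RY (algebraMap ℂ RX z) := IsScalarTower.algebraMap_apply ℂ RX RY z
  unfold ryLift
  rw [h1, qLift_C, rxLift_C]

lemma ryLift_σ : ryLift i σ t p q r hσ ht h σY = σ := by
  unfold ryLift σY
  rw [qLift_qw]

lemma ryLift_t : ryLift i σ t p q r hσ ht h tY = t := by
  unfold ryLift tY
  rw [qLift_C, rxLift_t]

lemma ryLift_r : ryLift i σ t p q r hσ ht h rY = r := by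
  unfold ryLift rY
  rw [qLift_C, rxLift_c]

lemma ryLift_q : ryLift i σ t p q r hσ ht h qY = q := by
  unfold qY
  rw [map_add, map_mul, ryLift_σ]
  unfold ryLift
  rw [qLift_C, qLift_C, rxLift_a, rxLift_b]
  have h1 : σ * ↑(hσ.unit⁻¹) = 1 := hσ.mul_val_inv
  have h2 := two_half i
  linear_combination (i (1 / 2) * (q - t * p)) * h1 + q * h2

lemma ryLift_p : ryLift i σ t p q r hσ ht h pY = p := by
  have h0 : ryLift i σ t p q r hσ ht h (tY * pY) = t * p := by
    rw [tpY, map_sub, map_mul, ryLift_σ]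
    unfold ryLift
    rw [qLift_C, qLift_C, rxLift_a, rxLift_b]
    have h1 : σ * ↑(hσ.unit⁻¹) = 1 := hσ.mul_val_inv
    have h2 := two_half i
    linear_combination (- i (1 / 2) * (q - t * p)) * h1 + (t * p) * h2
  rw [map_mul, ryLift_t] at h0
  exact ht.mul_left_cancel h0

end

lemma ry_hom_ext {T : Type*} [CommRing T] (u v : RY →+* T)
    (h1 : ∀ c : ℂ, u (algebraMap ℂ RY c) = v (algebraMap ℂ RY c))
    (h2 : u σY = v σY) (h3 : u tY = v tY) (h4 : u pY = v pY) (h5 : u qY = v qY)
    (h6 : u rY = v rY) : u = v := by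
  have htwo : IsUnit (2 : T) := by
    refine IsUnit.of_mul_eq_one (u (algebraMap ℂ RY (1 / 2))) ?_
    have : (2 : T) = u (algebraMap ℂ RY 2) := by rw [map_ofNat, map_ofNat]
    rw [this, ← map_mul, ← map_mul]
    norm_num
  have hC : ∀ w : RY →+* T, ∀ c : ℂ, w (algebraMap RX RY (algebraMap ℂ RX c)) = w (algebraMap ℂ RY c) := by
    intro w c
    rw [← IsScalarTower.algebraMap_apply]
  have ha : u (algebraMap RX RY aR) = v (algebraMap RX RY aR) := by
    apply htwo.mul_left_cancel
    have e1 : u (2 * algebraMap RX RY aR) = v (2 * algebraMap RX RY aR) := by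
      rw [aY_eq, map_add, map_add, map_mul, map_mul, h3, h4, h5]
    rwa [map_mul, map_mul, map_ofNat, map_ofNat] at e1
  have hb : u (algebraMap RX RY bR) = v (algebraMap RX RY bR) := by
    apply (htwo.mul (isUnit_σY.map v)).mul_left_cancel
    have e1 : u (2 * (σY * algebraMap RX RY bR)) = v (2 * (σY * algebraMap RX RY bR)) := by
      rw [bY_eq, map_sub, map_sub, map_mul, map_mul, h3, h4, h5]
    rw [map_mul, map_mul, map_mul, map_mul, map_ofNat, map_ofNat, h2] at e1
    rw [mul_assoc, mul_assoc]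
    exact e1
  apply q_hom_ext
  · have : u.comp (algebraMap RX RY) = v.comp (algebraMap RX RY) := by
      apply rx_hom_ext
      · intro c
        change u (algebraMap RX RY (algebraMap ℂ RX c)) = v (algebraMap RX RY (algebraMap ℂ RX c))
        rw [hC, hC, h1]
      · change u (algebraMap RX RY sR) = v (algebraMap RX RY sR)
        rw [← σY_sq, map_pow, map_pow, h2]
      · exact h3
      · exact hb
      · exact h6
      · exact ha
    intro c
    exact congrArg (fun f => f c) this
  · exact h2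

end H45.PB
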